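import Pool.Agent.V1198.RD6

/-!
# The measures `ω_m` and `χ_m` need not be equivalent in duals of spaces with the RDPP
-/

set_option autoImplicit false

noncomputable section

open Filter Topology
open scoped ENNReal

namespace Pool.Agent.Results.MP_997199_an.NotEquiv

open Pool.Agent.V1198.RD

section defs

variable {X Y : Type} [NormedAddCommGroup X] [NormedSpace ℝ X]
  [NormedAddCommGroup Y] [NormedSpace ℝ Y]

/-- Weakly compact subsets. -/
def WeaklyCompactSet (L : Set X) : Prop := IsCompact (toWeakSpace ℝ X '' L)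

/-- Weakly convergent sequences. -/
def WeaklyConverges (x : ℕ → X) (x₀ : X) : Prop :=
  ∀ φ : StrongDual ℝ X, Tendsto (fun n => φ (x n)) atTop (𝓝 (φ x₀))

/-- Completely continuous operators: weakly convergent sequences are sent to norm convergent
sequences. -/
def CompletelyContinuous (T : X →L[ℝ] Y) : Prop :=
  ∀ (x : ℕ → X) (x₀ : X), WeaklyConverges x x₀ → ∃ y, Tendsto (fun n => T (x n)) atTop (𝓝 y)

/-- Weakly compact operators: the weak closure of the image of the closed unit ball is weakly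
compact. -/
def WeaklyCompact (T : X →L[ℝ] Y) : Prop :=
  IsCompact (closure (toWeakSpace ℝ Y '' (T '' Metric.closedBall 0 1)))

/-- `χ_0(A|_L)`, in the sup norm on `L` (finite subsets of `A|_L` come from finite subsets of
`A`). -/
def chi0 (A : Set (StrongDual ℝ X)) (L : Set X) : ℝ≥0∞ :=
  ⨅ (F : Finset (StrongDual ℝ X)) (_ : (F : Set (StrongDual ℝ X)) ⊆ A),
    ⨆ φ ∈ A, ⨅ ψ ∈ F, ⨆ x ∈ L, ‖φ x - ψ x‖ₑ

/-- `χ_m(A)`. -/
def chiM (A : Set (StrongDual ℝ X)) : ℝ≥0∞ :=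
  ⨆ (L : Set X) (_ : L ⊆ Metric.closedBall 0 1) (_ : WeaklyCompactSet L), chi0 A L

variable (X) in
set_option warn.classDefReducibility false in
/-- The Mackey topology of `X*`: uniform convergence on the weakly compact subsets of `X`. -/
def mackey : TopologicalSpace (StrongDual ℝ X) :=
  TopologicalSpace.induced
    (fun φ => UniformOnFun.ofFun {L : Set X | WeaklyCompactSet L} (φ : X → ℝ)) inferInstance

/-- `ω_m(A)`. -/
def omegaM (A : Set (StrongDual ℝ X)) : ℝ≥0∞ :=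
  ⨅ (H : Set (StrongDual ℝ X)) (_ : @IsCompact _ (mackey X) H), ⨆ φ ∈ A, Metric.infEDist φ H

end defs

/-- The reciprocal Dunford-Pettis property. -/
def RDPP (X : Type) [NormedAddCommGroup X] [NormedSpace ℝ X] : Prop :=
  ∀ (Y : Type) [NormedAddCommGroup Y] [NormedSpace ℝ Y] [CompleteSpace Y] (T : X →L[ℝ] Y),
    CompletelyContinuous T → WeaklyCompact T

theorem CCn_of {X Y : Type} [NormedAddCommGroup X] [NormedSpace ℝ X] [NormedAddCommGroup Y]
    [NormedSpace ℝ Y] {T : X →L[ℝ] Y} (hT : CompletelyContinuous T) : CCn T := by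
  intro x hx
  obtain ⟨y, hy⟩ := hT x 0 fun φ => by rw [map_zero]; exact hx φ
  have h0 : y = 0 := by
    refine SeparatingDual.eq_zero_of_forall_dual_eq_zero (R := ℝ) fun ψ => ?_
    exact tendsto_nhds_unique ((ψ.continuous.tendsto y).comp hy) (hx (ψ.comp T))
  rwa [h0] at hy

theorem rdpp : RDPP XX := fun _ _ _ _ _ hT => compact_of_WL (WL_XX (CCn_of hT))

section mack

variable {X : Type} [NormedAddCommGroup X] [NormedSpace ℝ X]

/-- Total boundedness of Mackey compact sets. -/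
theorem approx {H : Set (StrongDual ℝ X)} (hH : @IsCompact _ (mackey X) H) {L : Set X}
    (hL : WeaklyCompactSet L) {ε : ℝ} (hε : 0 < ε) :
    ∃ F : Set (StrongDual ℝ X), F ⊆ H ∧ F.Finite ∧
      ∀ φ ∈ H, ∃ ψ ∈ F, ∀ x ∈ L, |φ x - ψ x| < ε := by
  set 𝔖 : Set (Set X) := {L : Set X | WeaklyCompactSet L} with h𝔖
  set e : StrongDual ℝ X → UniformOnFun X ℝ 𝔖 := fun φ => UniformOnFun.ofFun 𝔖 (φ : X → ℝ) with he
  have hcomp : IsCompact (e '' H) := by
    exact @IsCompact.image _ _ (mackey X) _ _ _ hH continuous_induced_dom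
  obtain ⟨t, ht1, ht2, ht3⟩ := hcomp.totallyBounded.exists_subset
    (UniformOnFun.gen_mem_uniformity ℝ 𝔖 (s := L) hL (Metric.dist_mem_uniformity hε))
  have hinj : Function.Injective e := fun φ ψ h => by
    have h1 : (φ : X → ℝ) = ψ := (UniformOnFun.ofFun 𝔖).injective h
    exact DFunLike.coe_injective h1
  refine ⟨e ⁻¹' t, fun φ hφ => ?_, ht2.preimage hinj.injOn, fun φ hφ => ?_⟩
  · obtain ⟨ψ, hψ, he2⟩ := ht1 hφ
    rwa [← hinj he2]
  · obtain ⟨g, hg, hgφ⟩ := Set.mem_iUnion₂.1 (ht3 ⟨φ, hφ, rfl⟩)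
    obtain ⟨ψ, -, rfl⟩ := ht1 hg
    refine ⟨ψ, hg, fun x hx => ?_⟩
    have h1 := hgφ x hx
    exact h1

theorem singleton_wc (x : X) : WeaklyCompactSet ({x} : Set X) := by
  unfold WeaklyCompactSet
  rw [Set.image_singleton]
  exact isCompact_singleton

theorem bounded_of_mackey [CompleteSpace X] {H : Set (StrongDual ℝ X)}
    (hH : @IsCompact _ (mackey X) H) : ∃ C, ∀ h ∈ H, ‖h‖ ≤ C := by
  obtain ⟨C, hC⟩ := banach_steinhaus (g := fun h : H => (h.1 : X →L[ℝ] ℝ)) fun x => by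
    obtain ⟨F, -, hF2, hF3⟩ := approx hH (singleton_wc x) one_pos
    obtain ⟨M, hM⟩ := (hF2.image fun ψ : StrongDual ℝ X => |ψ x|).bddAbove
    refine ⟨M + 1, fun h => ?_⟩
    obtain ⟨ψ, hψ, h1⟩ := hF3 h.1 h.2
    have h2 := h1 x rfl
    have h3 : |ψ x| ≤ M := hM ⟨ψ, hψ, rfl⟩
    rw [Real.norm_eq_abs]
    have h4 := abs_sub_abs_le_abs_sub (h.1 x) (ψ x)
    linarith
  exact ⟨C, fun h hh => hC ⟨h, hh⟩⟩

theorem evH_CCn {H : Set (StrongDual ℝ X)} (hH : @IsCompact _ (mackey X) H) {C : ℝ}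
    (hC : ∀ h ∈ H, ‖h‖ ≤ C) : CompletelyContinuous (evH H C hC) := by
  intro x x₀ hx
  refine ⟨evH H C hC x₀, ?_⟩
  have hwc : WeaklyCompactSet (insert x₀ (Set.range x)) := by
    unfold WeaklyCompactSet
    rw [Set.image_insert_eq, ← Set.range_comp]
    exact (weak_tendsto hx).isCompact_insert_range
  rw [Metric.tendsto_atTop]
  intro ε hε
  obtain ⟨F, -, hF2, hF3⟩ := approx hH hwc (show (0 : ℝ) < ε / 4 by linarith)
  have h1 : ∀ ψ ∈ F, ∀ᶠ n in atTop, |ψ (x n) - ψ x₀| < ε / 4 := fun ψ _ => by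
    have h2 := Metric.tendsto_nhds.1 (hx ψ) (ε / 4) (by linarith)
    filter_upwards [h2] with n hn
    rwa [Real.dist_eq] at hn
  obtain ⟨N, hN⟩ := eventually_atTop.1 ((hF2.eventually_all).2 h1)
  refine ⟨N, fun n hn => ?_⟩
  rw [dist_eq_norm, ← map_sub]
  refine lt_of_le_of_lt (lp.norm_le_of_forall_le (C := 3 * ε / 4) (by positivity) fun h => ?_)
    (by linarith)
  rw [evH_apply, map_sub, Real.norm_eq_abs]
  obtain ⟨ψ, hψ, h2⟩ := hF3 h.1 h.2
  have h3 := h2 (x n) (Set.mem_insert_of_mem _ ⟨n, rfl⟩)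
  have h4 := h2 x₀ (Set.mem_insert _ _)
  have h5 := hN n hn ψ hψ
  rw [abs_lt] at h3 h4 h5
  rw [abs_le]
  constructor <;> linarith [h3.1, h3.2, h4.1, h4.2, h5.1, h5.2]

end mack

/-- The sets. -/
def Ak (k : ℕ) : Set (StrongDual ℝ XX) := Set.range (dl k)

theorem chiM_le (k : ℕ) : chiM (Ak k) ≤ ENNReal.ofReal (43 / ((k : ℝ) + 1)) := by
  classical
  refine iSup_le fun L => iSup_le fun hL => iSup_le fun hwc => ?_
  obtain ⟨s, hs⟩ := cover_dual k hL hwc
  refine iInf₂_le_of_le (s.image (dl k)) (by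
    intro φ hφ
    obtain ⟨t, -, rfl⟩ := Finset.mem_image.1 (Finset.mem_coe.1 hφ)
    exact ⟨t, rfl⟩) ?_
  refine iSup₂_le ?_
  rintro _ ⟨t, rfl⟩
  obtain ⟨t', ht', h1⟩ := hs t
  refine iInf₂_le_of_le (dl k t') (Finset.mem_image_of_mem _ ht') ?_
  refine iSup₂_le fun x hx => ?_
  rw [Real.enorm_eq_ofReal_abs]
  exact ENNReal.ofReal_le_ofReal (h1 x hx)

theorem one_le_omegaM (k : ℕ) : 1 ≤ omegaM (Ak k) := by
  refine le_iInf₂ fun H hH => ?_
  obtain ⟨C, hC⟩ := bounded_of_mackey hH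
  have hWL : WL (evH H C hC) := WL_XX (CCn_of (evH_CCn hH hC))
  refine ENNReal.le_of_forall_pos_le_add fun ε hε _ => ?_
  obtain ⟨t, x, hx1, hx2, hx3⟩ := lower hWL k (ε := (ε : ℝ)) (by exact_mod_cast hε)
  have h1 : ∀ h ∈ H, 1 - (ε : ℝ) ≤ ‖dl k t - h‖ := by
    intro h hh
    have h2 : |h x| ≤ 2 * ε := by
      have h3 := lp.norm_apply_le_norm (p := ⊤) (by norm_num) (evH H C hC x) ⟨h, hh⟩
      rw [evH_apply] at h3
      exact h3.trans hx2
    have h3 := (dl k t - h).le_opNorm x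
    have h4 : (dl k t - h) x = 2 - h x := by
      change dl k t x - h x = _
      rw [hx3]
    rw [h4, Real.norm_eq_abs] at h3
    have h5 : ‖dl k t - h‖ * ‖x‖ ≤ ‖dl k t - h‖ * 2 :=
      mul_le_mul_of_nonneg_left hx1 (norm_nonneg _)
    have h6 := le_abs_self (2 - h x)
    have h7 := le_abs_self (h x)
    linarith
  have h2 : ENNReal.ofReal (1 - ε) ≤ Metric.infEDist (dl k t) H := by
    rw [Metric.le_infEDist]
    intro h hh
    rw [edist_dist, dist_eq_norm]
    exact ENNReal.ofReal_le_ofReal (h1 h hh)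
  have h3 : Metric.infEDist (dl k t) H ≤ ⨆ φ ∈ Ak k, Metric.infEDist φ H :=
    le_iSup₂ (f := fun φ (_ : φ ∈ Ak k) => Metric.infEDist φ H) (dl k t) ⟨t, rfl⟩
  calc (1 : ℝ≥0∞) = ENNReal.ofReal 1 := ENNReal.ofReal_one.symm
    _ ≤ ENNReal.ofReal ((1 - ε) + ε) := ENNReal.ofReal_le_ofReal (by linarith)
    _ ≤ ENNReal.ofReal (1 - ε) + ENNReal.ofReal ε := ENNReal.ofReal_add_le
    _ ≤ _ := by
        rw [ENNReal.ofReal_coe_nnreal]
        exact add_le_add (h2.trans h3) le_rfl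

/-- There are a (real) Banach space `X` with the reciprocal Dunford-Pettis property and nonempty
bounded sets `A_n ⊂ X*` with `ω_m(A_n) > n χ_m(A_n)` for all `n`. -/
theorem result : ∃ (X : Type) (_ : NormedAddCommGroup X) (_ : NormedSpace ℝ X),
    CompleteSpace X ∧ RDPP X ∧
    ∃ A : ℕ → Set (StrongDual ℝ X), ∀ n, (A n).Nonempty ∧ Bornology.IsBounded (A n) ∧
      (n : ℝ≥0∞) * chiM (A n) < omegaM (A n) := by
  refine ⟨XX, inferInstance, inferInstance, inferInstance, rdpp, fun n => Ak (43 * n),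
    fun n => ⟨⟨_, tt, rfl⟩, ?_, ?_⟩⟩
  · rw [isBounded_iff_forall_norm_le]
    refine ⟨1, ?_⟩
    rintro _ ⟨t, rfl⟩
    exact dl_norm _ t
  · refine lt_of_lt_of_le ?_ (one_le_omegaM (43 * n))
    have hk0 : (0 : ℝ) < ((43 * n : ℕ) : ℝ) + 1 := by positivity
    calc (n : ℝ≥0∞) * chiM (Ak (43 * n))
        ≤ (n : ℝ≥0∞) * ENNReal.ofReal (43 / (((43 * n : ℕ) : ℝ) + 1)) := by
          gcongr
          exact chiM_le _
      _ = ENNReal.ofReal ((n : ℝ) * (43 / (((43 * n : ℕ) : ℝ) + 1))) := by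
          rw [ENNReal.ofReal_mul (Nat.cast_nonneg n), ENNReal.ofReal_natCast]
      _ < 1 := by
          rw [ENNReal.ofReal_lt_one, mul_div_assoc', div_lt_one hk0]
          push_cast
          linarith

end Pool.Agent.Results.MP_997199_an.NotEquiv
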